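import Pool.Agent.Lib.MP_2c1b2b_gt.Interfaces

/-!
# MP_2c1b2b_gt, module I, first part: one halving step
-/

open MeasureTheory
open scoped BigOperators ENNReal Pointwise RealInnerProductSpace

namespace Pool.Agent.Lib.MP_2c1b2b_gt.H7

open Pool.Agent.Lib.MP_2c1b2b_gt

noncomputable section

lemma zn_nonneg {n N : ℕ} (v : Fin N → E n) (x : E n) : 0 ≤ zn v x :=
  Finset.sum_nonneg fun _ _ => abs_nonneg _

/-- The norm vanishes exactly on the vectors orthogonal to all the generators. -/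
lemma zn_eq_zero_iff {n N : ℕ} (v : Fin N → E n) (x : E n) :
    zn v x = 0 ↔ ∀ i, ⟪v i, x⟫ = 0 := by
  unfold zn
  rw [Finset.sum_eq_zero_iff_of_nonneg (fun _ _ => abs_nonneg _)]
  simp

/-- Reindexing a subfamily by an initial segment of the natural numbers. -/
lemma exists_sub {n N : ℕ} (s : Finset (Fin N)) (f : Fin N → E n) :
    ∃ u : Fin s.card → E n, (∀ j, ∃ i ∈ s, u j = f i) ∧
      ∀ x, zn u x = ∑ i ∈ s, |⟪f i, x⟫| := by
  classical
  refine ⟨fun j => f (s.equivFin.symm j), fun j => ⟨_, (s.equivFin.symm j).2, rfl⟩, fun x => ?_⟩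
  unfold zn
  rw [Equiv.sum_comp s.equivFin.symm (fun i : s => |⟪f i, x⟫|)]
  exact Finset.sum_coe_sort s (fun i => |⟪f i, x⟫|)

/-- The two-sided body. -/
def body {n N : ℕ} (v : Fin N → E n) (t : ℝ) : Set (Fin N → ℝ) :=
  {z : Fin N → ℝ | ∀ x, abs (∑ i, z i * |⟪v i, x⟫|) ≤ t * zn v x}

lemma isClosed_body {n N : ℕ} (v : Fin N → E n) (t : ℝ) : IsClosed (body v t) := by
  unfold body
  rw [Set.ofPred_forall]
  refine isClosed_iInter fun x => isClosed_le ?_ continuous_const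
  fun_prop

lemma convex_body {n N : ℕ} (v : Fin N → E n) (t : ℝ) : Convex ℝ (body v t) := by
  intro z hz z' hz' a b ha hb hab x
  have h1 : (∑ i, (a • z + b • z') i * |⟪v i, x⟫|)
      = a * (∑ i, z i * |⟪v i, x⟫|) + b * (∑ i, z' i * |⟪v i, x⟫|) := by
    rw [Finset.mul_sum, Finset.mul_sum, ← Finset.sum_add_distrib]
    refine Finset.sum_congr rfl fun i _ => ?_
    simp only [Pi.add_apply, Pi.smul_apply, smul_eq_mul]
    ring
  rw [h1]
  calc |a * (∑ i, z i * |⟪v i, x⟫|) + b * (∑ i, z' i * |⟪v i, x⟫|)|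
      ≤ |a * (∑ i, z i * |⟪v i, x⟫|)| + |b * (∑ i, z' i * |⟪v i, x⟫|)| := abs_add_le _ _
    _ = a * abs (∑ i, z i * |⟪v i, x⟫|) + b * abs (∑ i, z' i * |⟪v i, x⟫|) := by
        rw [abs_mul, abs_mul, abs_of_nonneg ha, abs_of_nonneg hb]
    _ ≤ a * (t * zn v x) + b * (t * zn v x) :=
        add_le_add (mul_le_mul_of_nonneg_left (hz x) ha) (mul_le_mul_of_nonneg_left (hz' x) hb)
    _ = t * zn v x := by rw [← add_mul, hab, one_mul]

lemma neg_mem_body {n N : ℕ} (v : Fin N → E n) (t : ℝ) : ∀ z ∈ body v t, -z ∈ body v t := by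
  intro z hz x
  have h1 : (∑ i, (-z) i * |⟪v i, x⟫|) = -(∑ i, z i * |⟪v i, x⟫|) := by
    rw [← Finset.sum_neg_distrib]
    refine Finset.sum_congr rfl fun i _ => ?_
    simp
  rw [h1, abs_neg]
  exact hz x

/-- One halving step. -/
theorem halving (VS : VolStatement) (PC : PCStatement) :
    ∃ L : ℝ, 0 < L ∧ ∃ c : ℝ, 0 < c ∧ ∃ N₀ : ℕ, ∀ n N : ℕ, 1 ≤ n → n ≤ N → N₀ ≤ N →
      ∀ v : Fin N → E n, (∀ i, v i ≠ 0) → (∀ x, (∀ i, ⟪v i, x⟫ = 0) → x = 0) →
        ∃ (m : ℕ) (u : Fin m → E n), (m : ℝ) ≤ (1 - c) * N ∧ (∀ i, u i ≠ 0) ∧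
          ∀ x, |zn u x - zn v x| ≤ L * Real.sqrt (n / N) * zn v x := by
  classical
  obtain ⟨lam, hlam, c, hc, N₀, H⟩ := PC 32 (by norm_num)
  refine ⟨lam * 5, by positivity, c, hc, N₀, ?_⟩
  intro n N hn hnN hN v hv hspan
  have hvol := VS n N hn hnN v hv hspan
  obtain ⟨w, hwQ, hw1, hcard⟩ := H N hN (body v (5 * Real.sqrt (n / N))) (isClosed_body _ _)
    (convex_body _ _) (neg_mem_body _ _) hvol
  obtain ⟨q, hq, rfl⟩ := Set.mem_smul_set.1 hwQ
  set w : Fin N → ℝ := lam • q with hw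
  -- the selected coordinates
  set s : Finset (Fin N) := Finset.univ.filter (fun i => ¬ w i = -1) with hs
  obtain ⟨u, hu1, hu2⟩ := exists_sub s (fun i => (1 + w i) • v i)
  refine ⟨s.card, u, ?_, ?_, ?_⟩
  · have h1 := Finset.card_filter_add_card_filter_not (s := (Finset.univ : Finset (Fin N)))
      (fun i => w i = -1)
    rw [Finset.card_univ, Fintype.card_fin] at h1
    have h2 : ((Finset.univ.filter (fun i => w i = -1)).card : ℝ) + (s.card : ℝ) = N := by
      rw [hs, ← Nat.cast_add, h1]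
    linarith
  · intro j
    obtain ⟨i, hi, hij⟩ := hu1 j
    rw [hij]
    have h1 : w i ≠ -1 := (Finset.mem_filter.1 hi).2
    exact smul_ne_zero (fun h => h1 (by linarith)) (hv i)
  · intro x
    have habs : ∀ i, |⟪(1 + w i) • v i, x⟫| = (1 + w i) * |⟪v i, x⟫| := by
      intro i
      rw [real_inner_smul_left, abs_mul, abs_of_nonneg]
      have := (abs_le.1 (hw1 i)).1
      linarith
    have h1 : zn u x = zn v x + ∑ i, w i * |⟪v i, x⟫| := by
      rw [hu2 x]
      have h2 : ∑ i ∈ s, |⟪(1 + w i) • v i, x⟫| = ∑ i, |⟪(1 + w i) • v i, x⟫| := by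
        refine Finset.sum_subset (Finset.subset_univ s) fun i _ hi => ?_
        have h3 : w i = -1 := by
          by_contra h
          exact hi (Finset.mem_filter.2 ⟨Finset.mem_univ i, h⟩)
        rw [h3]
        simp
      rw [h2]
      unfold zn
      rw [← Finset.sum_add_distrib]
      refine Finset.sum_congr rfl fun i _ => ?_
      rw [habs i]
      ring
    have h2 : (∑ i, w i * |⟪v i, x⟫|) = lam * ∑ i, q i * |⟪v i, x⟫| := by
      rw [Finset.mul_sum]
      refine Finset.sum_congr rfl fun i _ => ?_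
      rw [hw]
      simp only [Pi.smul_apply, smul_eq_mul]
      ring
    rw [h1, add_sub_cancel_left, h2, abs_mul, abs_of_pos hlam]
    calc lam * abs (∑ i, q i * |⟪v i, x⟫|) ≤ lam * (5 * Real.sqrt (n / N) * zn v x) :=
          mul_le_mul_of_nonneg_left (hq x) hlam.le
      _ = lam * 5 * Real.sqrt (n / N) * zn v x := by ring

end

end Pool.Agent.Lib.MP_2c1b2b_gt.H7
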