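import Pool.Agent.Lib.MP_2c1b2b_gt.H7.Halve

/-!
# MP_2c1b2b_gt, module I, second part: iterating the halving step
-/

open MeasureTheory
open scoped BigOperators ENNReal Pointwise RealInnerProductSpace

namespace Pool.Agent.Lib.MP_2c1b2b_gt.H7

open Pool.Agent.Lib.MP_2c1b2b_gt

noncomputable section

lemma exp_le_one_sub {d : ℝ} (h0 : 0 ≤ d) (h1 : d ≤ 1 / 2) : Real.exp (-(2 * d)) ≤ 1 - d := by
  have h2 : 1 + 2 * d ≤ Real.exp (2 * d) := by
    have := Real.add_one_le_exp (2 * d)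
    linarith
  have h3 : Real.exp (-(2 * d)) * Real.exp (2 * d) = 1 := by
    rw [← Real.exp_add]; simp
  have h4 : 0 < Real.exp (-(2 * d)) := Real.exp_pos _
  have h5 : Real.exp (-(2 * d)) * (1 + 2 * d) ≤ 1 := by
    calc Real.exp (-(2 * d)) * (1 + 2 * d) ≤ Real.exp (-(2 * d)) * Real.exp (2 * d) :=
          mul_le_mul_of_nonneg_left h2 h4.le
      _ = 1 := h3
  have h6 : (1 : ℝ) ≤ (1 - d) * (1 + 2 * d) := by nlinarith
  have h7 : (0 : ℝ) < 1 + 2 * d := by linarith
  exact le_of_mul_le_mul_right (h5.trans h6) h7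

/-- Iteration of the halving step `k` times. -/
theorem iterate {n : ℕ} (hn : 1 ≤ n) {L c A : ℝ} {N₀ : ℕ} (hL : 0 < L) (hc : 0 < c) (hc1 : c < 1)
    (H : ∀ N : ℕ, n ≤ N → N₀ ≤ N → ∀ v : Fin N → E n, (∀ i, v i ≠ 0) →
      (∀ x, (∀ i, ⟪v i, x⟫ = 0) → x = 0) →
        ∃ (m : ℕ) (u : Fin m → E n), (m : ℝ) ≤ (1 - c) * N ∧ (∀ i, u i ≠ 0) ∧
          ∀ x, |zn u x - zn v x| ≤ L * Real.sqrt (n / N) * zn v x)
    (hA1 : 1 ≤ A) (hAN : (N₀ : ℝ) ≤ A) (hAL : L / Real.sqrt A ≤ 1 / 2) (k : ℕ) :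
    ∀ (N : ℕ) (v : Fin N → E n), (∀ i, v i ≠ 0) → (∀ x, (∀ i, ⟪v i, x⟫ = 0) → x = 0) →
      (N : ℝ) * (1 - c) ^ k ≤ A * n →
        ∃ (m : ℕ) (u : Fin m → E n), (m : ℝ) ≤ A * n ∧ ∀ x,
          Real.exp (-(2 * (L / Real.sqrt A) * ∑ j ∈ Finset.range k, Real.sqrt (1 - c) ^ j))
            * zn v x ≤ zn u x ∧
          zn u x ≤ Real.exp (2 * (L / Real.sqrt A) * ∑ j ∈ Finset.range k, Real.sqrt (1 - c) ^ j)
            * zn v x := by
  have hA0 : 0 < A := by linarith
  have hsA : 0 < Real.sqrt A := Real.sqrt_pos.2 hA0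
  have hLA : 0 < L / Real.sqrt A := div_pos hL hsA
  have hc0 : (0 : ℝ) < 1 - c := by linarith
  have hb0 : 0 ≤ Real.sqrt (1 - c) := Real.sqrt_nonneg _
  have hb1 : Real.sqrt (1 - c) ≤ 1 := Real.sqrt_le_one.2 (by linarith)
  have hnR : (1 : ℝ) ≤ (n : ℝ) := by exact_mod_cast hn
  induction k with
  | zero =>
    intro N v _ _ hN
    refine ⟨N, v, by simpa using hN, fun x => ?_⟩
    simp
  | succ k ih =>
    intro N v hv hspan hN
    by_cases hcase : (N : ℝ) * (1 - c) ^ k ≤ A * n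
    · obtain ⟨m, u, hm, hu⟩ := ih N v hv hspan hcase
      refine ⟨m, u, hm, fun x => ?_⟩
      have hz := zn_nonneg v x
      have hsum : (∑ j ∈ Finset.range k, Real.sqrt (1 - c) ^ j)
          ≤ ∑ j ∈ Finset.range (k + 1), Real.sqrt (1 - c) ^ j := by
        rw [Finset.sum_range_succ]
        have : 0 ≤ Real.sqrt (1 - c) ^ k := pow_nonneg hb0 k
        linarith
      have hmul := mul_le_mul_of_nonneg_left hsum (by positivity : 0 ≤ 2 * (L / Real.sqrt A))
      refine ⟨le_trans (mul_le_mul_of_nonneg_right (Real.exp_le_exp.2 ?_) hz) (hu x).1,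
        le_trans (hu x).2 (mul_le_mul_of_nonneg_right (Real.exp_le_exp.2 hmul) hz)⟩
      linarith
    · rw [not_le] at hcase
      have hp1 : (1 - c) ^ k ≤ 1 := pow_le_one₀ hc0.le (by linarith)
      have hp0 : 0 < (1 - c) ^ k := pow_pos hc0 k
      have hNR : A * n < (N : ℝ) := lt_of_lt_of_le hcase (by
        have : (0 : ℝ) ≤ (N : ℝ) := Nat.cast_nonneg N
        nlinarith)
      have hN0 : (0 : ℝ) < (N : ℝ) := by nlinarith
      have hnN : n ≤ N := by
        have : (n : ℝ) < (N : ℝ) := by nlinarith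
        exact_mod_cast this.le
      have hN₀N : N₀ ≤ N := by
        have : (N₀ : ℝ) < (N : ℝ) := by nlinarith
        exact_mod_cast this.le
      obtain ⟨m₁, u₁, hm₁, hu₁0, hu₁⟩ := H N hnN hN₀N v hv hspan
      -- the size of the error
      set d : ℝ := L * Real.sqrt (n / N) with hd
      have hd0 : 0 ≤ d := by positivity
      have hdb : d ≤ L / Real.sqrt A * Real.sqrt (1 - c) ^ k := by
        have h1 : (n : ℝ) / N ≤ (1 - c) ^ k / A := by
          rw [div_le_div_iff₀ hN0 hA0]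
          nlinarith
        have h2 : Real.sqrt ((n : ℝ) / N) ≤ Real.sqrt ((1 - c) ^ k / A) := Real.sqrt_le_sqrt h1
        have h3 : Real.sqrt ((1 - c) ^ k / A) = Real.sqrt (1 - c) ^ k / Real.sqrt A := by
          rw [Real.sqrt_div (pow_nonneg hc0.le k)]
          congr 1
          rw [Real.sqrt_eq_iff_mul_self_eq (pow_nonneg hc0.le k) (pow_nonneg hb0 k),
            ← mul_pow, Real.mul_self_sqrt hc0.le]
        rw [hd, div_mul_eq_mul_div, mul_div_assoc]
        exact mul_le_mul_of_nonneg_left (h2.trans_eq h3) hL.le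
      have hdh : d ≤ 1 / 2 := by
        refine hdb.trans (le_trans ?_ hAL)
        have : Real.sqrt (1 - c) ^ k ≤ 1 := pow_le_one₀ hb0 hb1
        nlinarith
      have hspan₁ : ∀ x, (∀ i, ⟪u₁ i, x⟫ = 0) → x = 0 := by
        intro x hx
        have h1 : zn u₁ x = 0 := (zn_eq_zero_iff u₁ x).2 hx
        have h2 := hu₁ x
        rw [h1, zero_sub, abs_neg, abs_of_nonneg (zn_nonneg v x)] at h2
        have h3 := zn_nonneg v x
        have h4 : zn v x = 0 := by nlinarith
        exact hspan x ((zn_eq_zero_iff v x).1 h4)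
      have hm₁' : (m₁ : ℝ) * (1 - c) ^ k ≤ A * n := by
        calc (m₁ : ℝ) * (1 - c) ^ k ≤ ((1 - c) * N) * (1 - c) ^ k :=
              mul_le_mul_of_nonneg_right hm₁ hp0.le
          _ = (N : ℝ) * (1 - c) ^ (k + 1) := by ring
          _ ≤ A * n := hN
      obtain ⟨m, u, hm, hu⟩ := ih m₁ u₁ hu₁0 hspan₁ hm₁'
      refine ⟨m, u, hm, fun x => ?_⟩
      have hz := zn_nonneg v x
      have hz₁ := zn_nonneg u₁ x
      have habs := abs_le.1 (hu₁ x)
      have hup : zn u₁ x ≤ (1 + d) * zn v x := by linarith [habs.2]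
      have hlo : (1 - d) * zn v x ≤ zn u₁ x := by linarith [habs.1]
      set S : ℝ := ∑ j ∈ Finset.range k, Real.sqrt (1 - c) ^ j with hS
      have hS1 : (∑ j ∈ Finset.range (k + 1), Real.sqrt (1 - c) ^ j)
          = S + Real.sqrt (1 - c) ^ k := Finset.sum_range_succ _ _
      rw [hS1]
      constructor
      · calc Real.exp (-(2 * (L / Real.sqrt A) * (S + Real.sqrt (1 - c) ^ k))) * zn v x
            ≤ (Real.exp (-(2 * (L / Real.sqrt A) * S)) * Real.exp (-(2 * d))) * zn v x := by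
              refine mul_le_mul_of_nonneg_right ?_ hz
              rw [← Real.exp_add]
              refine Real.exp_le_exp.2 ?_
              linarith
          _ ≤ (Real.exp (-(2 * (L / Real.sqrt A) * S)) * (1 - d)) * zn v x := by
              refine mul_le_mul_of_nonneg_right ?_ hz
              exact mul_le_mul_of_nonneg_left (exp_le_one_sub hd0 hdh) (Real.exp_pos _).le
          _ = Real.exp (-(2 * (L / Real.sqrt A) * S)) * ((1 - d) * zn v x) := by ring
          _ ≤ Real.exp (-(2 * (L / Real.sqrt A) * S)) * zn u₁ x :=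
              mul_le_mul_of_nonneg_left hlo (Real.exp_pos _).le
          _ ≤ zn u x := (hu x).1
      · calc zn u x ≤ Real.exp (2 * (L / Real.sqrt A) * S) * zn u₁ x := (hu x).2
          _ ≤ Real.exp (2 * (L / Real.sqrt A) * S) * ((1 + d) * zn v x) :=
              mul_le_mul_of_nonneg_left hup (Real.exp_pos _).le
          _ ≤ Real.exp (2 * (L / Real.sqrt A) * S) * (Real.exp (2 * d) * zn v x) := by
              refine mul_le_mul_of_nonneg_left (mul_le_mul_of_nonneg_right ?_ hz)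
                (Real.exp_pos _).le
              have := Real.add_one_le_exp (2 * d)
              linarith
          _ = (Real.exp (2 * (L / Real.sqrt A) * S) * Real.exp (2 * d)) * zn v x := by ring
          _ ≤ Real.exp (2 * (L / Real.sqrt A) * (S + Real.sqrt (1 - c) ^ k)) * zn v x := by
              refine mul_le_mul_of_nonneg_right ?_ hz
              rw [← Real.exp_add]
              refine Real.exp_le_exp.2 ?_
              linarith

/-- The sparsification of a spanning family of nonzero vectors. -/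
theorem sparse_span (VS : VolStatement) (PC : PCStatement) (ε : ℝ) (hε : 0 < ε) :
    ∃ A : ℝ, 0 < A ∧ ∀ n N : ℕ, 1 ≤ n → ∀ v : Fin N → E n, (∀ i, v i ≠ 0) →
      (∀ x, (∀ i, ⟪v i, x⟫ = 0) → x = 0) →
        ∃ (m : ℕ) (u : Fin m → E n), (m : ℝ) ≤ A * n ∧
          ∀ x, (1 - ε) * zn v x ≤ zn u x ∧ zn u x ≤ (1 + ε) * zn v x := by
  obtain ⟨L, hL, c₀, hc₀, N₀, H₀⟩ := halving VS PC
  -- make the constant smaller than one
  obtain ⟨c, hc, hc1, hcc⟩ : ∃ c : ℝ, 0 < c ∧ c < 1 ∧ c ≤ c₀ :=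
    ⟨min c₀ (1 / 2), lt_min hc₀ (by norm_num), lt_of_le_of_lt (min_le_right _ _) (by norm_num),
      min_le_left _ _⟩
  have hb0 : 0 ≤ Real.sqrt (1 - c) := Real.sqrt_nonneg _
  have hb1 : Real.sqrt (1 - c) < 1 := by
    rw [Real.sqrt_lt' one_pos]
    linarith
  set b : ℝ := Real.sqrt (1 - c) with hb
  have hlog : 0 < Real.log (1 + ε) := Real.log_pos (by linarith)
  -- the constant
  set R : ℝ := 2 * L / ((1 - b) * Real.log (1 + ε)) + 2 * L + 1 + N₀ with hR
  have hden : 0 < (1 - b) * Real.log (1 + ε) := mul_pos (by linarith) hlog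
  have hR1 : 1 ≤ R := by
    have h1 : 0 < 2 * L / ((1 - b) * Real.log (1 + ε)) := by positivity
    have h2 : (0 : ℝ) ≤ N₀ := Nat.cast_nonneg _
    linarith
  have hRN : (N₀ : ℝ) ≤ R := by
    have h1 : 0 < 2 * L / ((1 - b) * Real.log (1 + ε)) := by positivity
    linarith
  have hRL : 2 * L ≤ R := by
    have h1 : 0 < 2 * L / ((1 - b) * Real.log (1 + ε)) := by positivity
    have h2 : (0 : ℝ) ≤ N₀ := Nat.cast_nonneg _
    linarith
  have hRe : 2 * L / ((1 - b) * Real.log (1 + ε)) ≤ R := by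
    have h2 : (0 : ℝ) ≤ N₀ := Nat.cast_nonneg _
    linarith
  have hR0 : 0 < R := by linarith
  have hsq : Real.sqrt (R ^ 2) = R := Real.sqrt_sq hR0.le
  refine ⟨R ^ 2, by positivity, ?_⟩
  intro n N hn v hv hspan
  have hnR : (1 : ℝ) ≤ (n : ℝ) := by exact_mod_cast hn
  have H : ∀ N : ℕ, n ≤ N → N₀ ≤ N → ∀ v : Fin N → E n, (∀ i, v i ≠ 0) →
      (∀ x, (∀ i, ⟪v i, x⟫ = 0) → x = 0) →
        ∃ (m : ℕ) (u : Fin m → E n), (m : ℝ) ≤ (1 - c) * N ∧ (∀ i, u i ≠ 0) ∧
          ∀ x, |zn u x - zn v x| ≤ L * Real.sqrt (n / N) * zn v x := by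
    intro N hnN hN v hv hs
    obtain ⟨m, u, hm, hu0, hu⟩ := H₀ n N hn hnN hN v hv hs
    refine ⟨m, u, hm.trans ?_, hu0, hu⟩
    have : (0 : ℝ) ≤ N := Nat.cast_nonneg _
    nlinarith
  -- the number of steps
  obtain ⟨k, hk⟩ : ∃ k : ℕ, (N : ℝ) * (1 - c) ^ k ≤ R ^ 2 * n := by
    have h1 : ∃ k : ℕ, (1 - c) ^ k < 1 / ((N : ℝ) + 1) :=
      exists_pow_lt_of_lt_one (by positivity) (by linarith)
    obtain ⟨k, hk⟩ := h1
    refine ⟨k, ?_⟩
    have h2 : (N : ℝ) * (1 - c) ^ k ≤ N * (1 / ((N : ℝ) + 1)) :=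
      mul_le_mul_of_nonneg_left hk.le (Nat.cast_nonneg _)
    have h3 : (N : ℝ) * (1 / ((N : ℝ) + 1)) ≤ 1 := by
      rw [mul_one_div, div_le_one (by positivity)]
      linarith
    nlinarith
  obtain ⟨m, u, hm, hu⟩ := iterate hn hL hc hc1 H (A := R ^ 2) (by nlinarith) (by nlinarith)
    (by rw [hsq, div_le_iff₀ hR0]; linarith) k N v hv hspan hk
  rw [hsq, ← hb] at hu
  have hgeo : (∑ j ∈ Finset.range k, b ^ j) ≤ 1 / (1 - b) := by
    rw [le_div_iff₀ (by linarith)]
    have h1 : (∑ j ∈ Finset.range k, b ^ j) * (b - 1) = b ^ k - 1 := geom_sum_mul b k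
    have h2 : 0 ≤ b ^ k := pow_nonneg hb0 k
    linarith
  have hE : 2 * (L / R) * ∑ j ∈ Finset.range k, b ^ j ≤ Real.log (1 + ε) := by
    calc 2 * (L / R) * ∑ j ∈ Finset.range k, b ^ j ≤ 2 * (L / R) * (1 / (1 - b)) :=
          mul_le_mul_of_nonneg_left hgeo (by positivity)
      _ ≤ Real.log (1 + ε) := by
          have h1 : 2 * (L / R) * (1 / (1 - b)) = 2 * L / ((1 - b) * R) := by
            have : (1 - b) ≠ 0 := by linarith
            field_simp
          rw [h1, div_le_iff₀ (mul_pos (by linarith) hR0)]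
          rw [div_le_iff₀ hden] at hRe
          linarith
  refine ⟨m, u, hm, fun x => ?_⟩
  have hz := zn_nonneg v x
  have he1 : Real.exp (Real.log (1 + ε)) = 1 + ε := Real.exp_log (by linarith)
  have he2 : 1 - ε ≤ Real.exp (-Real.log (1 + ε)) := by
    rw [Real.exp_neg, he1, ← one_div, le_div_iff₀ (by linarith)]
    nlinarith [sq_nonneg ε]
  constructor
  · refine le_trans (mul_le_mul_of_nonneg_right (he2.trans (Real.exp_le_exp.2 ?_)) hz) (hu x).1
    linarith
  · refine le_trans (hu x).2 (mul_le_mul_of_nonneg_right ?_ hz)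
    calc _ ≤ Real.exp (Real.log (1 + ε)) := Real.exp_le_exp.2 hE
      _ = 1 + ε := he1

end

end Pool.Agent.Lib.MP_2c1b2b_gt.H7
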