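import Pool.Agent.Lib.MP_2c1b2b_gt.H7.Iterate

/-!
# MP_2c1b2b_gt, module I: `SparseStatement` from `VolStatement` and `PCStatement`
-/

open MeasureTheory
open scoped BigOperators ENNReal Pointwise RealInnerProductSpace

namespace Pool.Agent.Lib.MP_2c1b2b_gt.H7

open Pool.Agent.Lib.MP_2c1b2b_gt

noncomputable section

/-- Reduction of the general case to that of spanning families of nonzero vectors. -/
theorem sparse_of_span {ε A : ℝ} (hA : 0 < A)
    (H : ∀ n N : ℕ, 1 ≤ n → ∀ v : Fin N → E n, (∀ i, v i ≠ 0) →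
      (∀ x, (∀ i, ⟪v i, x⟫ = 0) → x = 0) →
        ∃ (m : ℕ) (u : Fin m → E n), (m : ℝ) ≤ A * n ∧
          ∀ x, (1 - ε) * zn v x ≤ zn u x ∧ zn u x ≤ (1 + ε) * zn v x)
    (n N : ℕ) (v : Fin N → E n) :
    ∃ (m : ℕ) (w : Fin m → E n), (m : ℝ) ≤ A * n ∧
      ∀ x, (1 - ε) * zn v x ≤ zn w x ∧ zn w x ≤ (1 + ε) * zn v x := by
  classical
  set F : Submodule ℝ (E n) := Submodule.span ℝ (Set.range v) with hF
  have hvF : ∀ i, v i ∈ F := fun i => Submodule.subset_span ⟨i, rfl⟩
  by_cases hall : ∀ i, v i = 0
  · refine ⟨0, fun i => i.elim0, by simpa using mul_nonneg hA.le (Nat.cast_nonneg n), fun x => ?_⟩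
    have h1 : zn v x = 0 := by
      rw [zn_eq_zero_iff]
      intro i
      rw [hall i, inner_zero_left]
    have h2 : zn (fun i : Fin 0 => (i.elim0 : E n)) x = 0 := by
      unfold zn
      simp
    rw [h1, h2]
    simp
  · obtain ⟨i₀, hi₀⟩ := not_forall.1 hall
    set d : ℕ := Module.finrank ℝ F with hd
    have hd1 : 1 ≤ d := by
      rw [hd, Nat.one_le_iff_ne_zero]
      intro h0
      have h1 : F = ⊥ := Submodule.finrank_eq_zero.1 h0
      have h2 := hvF i₀
      rw [h1, Submodule.mem_bot] at h2
      exact hi₀ h2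
    have hdn : d ≤ n := by
      have h1 : d ≤ Module.finrank ℝ (E n) := Submodule.finrank_le F
      simpa using h1
    set e : F ≃ₗᵢ[ℝ] E d := (stdOrthonormalBasis ℝ F).repr with he
    -- the nonzero vectors
    set s : Finset (Fin N) := Finset.univ.filter (fun i => v i ≠ 0) with hs
    obtain ⟨v', hv'1, hv'2⟩ := exists_sub s (fun i => e ⟨v i, hvF i⟩)
    have hv'0 : ∀ j, v' j ≠ 0 := by
      intro j h0
      obtain ⟨i, hi, hij⟩ := hv'1 j
      rw [hij] at h0
      have h1 : (⟨v i, hvF i⟩ : F) = 0 := by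
        have := (map_eq_zero_iff e e.injective).1 h0
        exact this
      have h2 : v i = 0 := by
        have := congrArg Subtype.val h1
        exact this
      exact (Finset.mem_filter.1 hi).2 h2
    -- the norm as seen from the span
    have hzn : ∀ y : F, zn v' (e y) = zn v (y : E n) := by
      intro y
      rw [hv'2]
      have h1 : ∀ i, ⟪e ⟨v i, hvF i⟩, e y⟫ = ⟪v i, (y : E n)⟫ := by
        intro i
        rw [LinearIsometryEquiv.inner_map_map, Submodule.coe_inner]
      simp only [h1]
      unfold zn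
      refine Finset.sum_subset (Finset.subset_univ s) fun i _ hi => ?_
      have h3 : v i = 0 := by
        by_contra h
        exact hi (Finset.mem_filter.2 ⟨Finset.mem_univ i, h⟩)
      rw [h3, inner_zero_left, abs_zero]
    have hproj : ∀ x : E n, zn v x = zn v' (e (F.orthogonalProjectionOnto x)) := by
      intro x
      rw [hzn]
      unfold zn
      refine Finset.sum_congr rfl fun i _ => ?_
      have h1 : ⟪((⟨v i, hvF i⟩ : F) : E n), x⟫
          = ⟪(⟨v i, hvF i⟩ : F), F.orthogonalProjectionOnto x⟫ :=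
        (Submodule.inner_orthogonalProjectionOnto_eq_of_mem_left (⟨v i, hvF i⟩ : F) x).symm
      have h2 : ⟪v i, x⟫ = ⟪v i, ((F.orthogonalProjectionOnto x : F) : E n)⟫ := by
        rw [Submodule.coe_inner] at h1
        exact h1
      rw [h2]
    have hspan' : ∀ x, (∀ j, ⟪v' j, x⟫ = 0) → x = 0 := by
      intro x hx
      obtain ⟨y, rfl⟩ := e.surjective x
      have h1 : zn v' (e y) = 0 := (zn_eq_zero_iff v' (e y)).2 hx
      rw [hzn, zn_eq_zero_iff] at h1
      have h2 : ∀ z ∈ F, ⟪z, (y : E n)⟫ = 0 := by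
        intro z hz
        rw [hF] at hz
        induction hz using Submodule.span_induction with
        | mem z hz =>
          obtain ⟨i, rfl⟩ := hz
          exact h1 i
        | zero => exact inner_zero_left _
        | add a b _ _ ha hb => rw [inner_add_left, ha, hb, add_zero]
        | smul r a _ ha => rw [real_inner_smul_left, ha, mul_zero]
      have h3 : (y : E n) = 0 := by
        have := h2 y y.2
        exact inner_self_eq_zero.1 this
      have h4 : y = 0 := Subtype.ext h3
      rw [h4, map_zero]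
    obtain ⟨m, u, hm, hu⟩ := H d s.card hd1 v' hv'0 hspan'
    refine ⟨m, fun j => ((e.symm (u j) : F) : E n), ?_, fun x => ?_⟩
    · refine hm.trans (mul_le_mul_of_nonneg_left ?_ hA.le)
      exact_mod_cast hdn
    · have h1 : zn (fun j => ((e.symm (u j) : F) : E n)) x
          = zn u (e (F.orthogonalProjectionOnto x)) := by
        unfold zn
        refine Finset.sum_congr rfl fun j _ => ?_
        have h2 : ⟪((e.symm (u j) : F) : E n), x⟫ = ⟪e.symm (u j), F.orthogonalProjectionOnto x⟫ :=
          (Submodule.inner_orthogonalProjectionOnto_eq_of_mem_left (e.symm (u j)) x).symm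
        have h3 : ⟪e.symm (u j), F.orthogonalProjectionOnto x⟫
            = ⟪u j, e (F.orthogonalProjectionOnto x)⟫ := by
          rw [← LinearIsometryEquiv.inner_map_map e, LinearIsometryEquiv.apply_symm_apply]
        rw [h2, h3]
      rw [h1, hproj x]
      exact hu _

/-- Module I. -/
theorem sparse (VS : VolStatement) (PC : PCStatement) : SparseStatement := by
  intro ε hε
  obtain ⟨A, hA, H⟩ := sparse_span VS PC ε hε
  exact ⟨A, hA, fun n N v => sparse_of_span hA H n N v⟩

end

end Pool.Agent.Lib.MP_2c1b2b_gt.H7
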